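import Mathlib
import Pool.Agent.Helper848.Lazy.Game

set_option autoImplicit false

/-!
# Graphs with large maximum degree and large lazy cop number

The three dimensional Hamming graph `K_q □ K_q □ K_q` satisfies
`c_L ≥ q + B (q - 2 B)` for every `B`, hence `c_L > k` for some `q` with `q ^ 3 ≤ k ^ 2`, for every
`k ≥ 365`.  Hanging a star of any size on this graph keeps `c_L > k`, which refutes the conjecture
that `Δ(G) ≥ n - k ^ 2` implies `c_L(G) ≤ k`.
-/

namespace Pool.Agent.Results.MP_9f93d5_co.Disproof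

open LazyCops Finset

/-- The Hamming graph `K_q □ K_q □ K_q`: triples over `Fin q`, two triples being adjacent when they
differ in exactly one coordinate. -/
def ham (q : ℕ) : SimpleGraph (Fin 3 → Fin q) where
  Adj x y := hammingDist x y = 1
  symm := ⟨fun x y h => by rw [hammingDist_comm]; exact h⟩
  loopless := ⟨fun x h => by simp at h⟩

section strategy

variable {q k B : ℕ}

theorem adj_update (x : Fin 3 → Fin q) (m : Fin 3) (t : Fin q) (h : t ≠ x m) :
    (ham q).Adj x (Function.update x m t) := by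
  change hammingDist x (Function.update x m t) = 1
  unfold hammingDist
  rw [Finset.card_eq_one]
  refine ⟨m, ?_⟩
  ext i
  simp only [mem_filter, mem_univ, true_and, mem_singleton]
  constructor
  · intro hi
    by_contra hne
    exact hi (by rw [Function.update_of_ne hne])
  · rintro rfl
    rw [Function.update_self]
    exact h.symm

theorem exists_update {x y : Fin 3 → Fin q} (h : (ham q).Adj x y) :
    ∃ (m : Fin 3) (t : Fin q), y = Function.update x m t := by
  have h' : hammingDist x y = 1 := h
  unfold hammingDist at h'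
  rw [Finset.card_eq_one] at h'
  obtain ⟨m, hm⟩ := h'
  refine ⟨m, y m, ?_⟩
  ext i
  by_cases hi : i = m
  · subst hi; rw [Function.update_self]
  · rw [Function.update_of_ne hi]
    have : i ∉ ({m} : Finset (Fin 3)) := by simpa using hi
    rw [← hm] at this
    simp only [mem_filter, mem_univ, true_and, not_not] at this
    rw [this]

/-- number of cops whose coordinate `a` is `v` -/
def cnt (c : Fin k → Fin 3 → Fin q) (a : Fin 3) (v : Fin q) : ℕ :=
  (univ.filter fun i => c i a = v).card

/-- The invariant of the robber: no cop shares two coordinates with him, and for each coordinate at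
most `B` cops share it with him. -/
def Inv (B : ℕ) (c : Fin k → Fin 3 → Fin q) (r : Fin 3 → Fin q) : Prop :=
  (∀ i a b, a ≠ b → c i a = r a → c i b ≠ r b) ∧ ∀ a, cnt c a (r a) ≤ B

theorem choose (hk : k + B * (2 * B) < q * (B + 1)) (c : Fin k → Fin 3 → Fin q) (m : Fin 3)
    (D : Finset (Fin k)) (hD : D.card ≤ 2 * B) :
    ∃ t : Fin q, cnt c m t ≤ B ∧ ∀ i, c i m = t → i ∉ D := by
  by_contra hcon
  push Not at hcon
  have hsum : ∑ t : Fin q, cnt c m t = k := by
    unfold cnt
    have := Finset.card_eq_sum_card_fiberwise (f := fun i => c i m) (s := (univ : Finset (Fin k)))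
      (t := (univ : Finset (Fin q))) (fun _ _ => Finset.mem_coe.mpr (mem_univ _))
    rw [← this, card_univ, Fintype.card_fin]
  set L := univ.filter fun t : Fin q => cnt c m t ≤ B with hL
  have hLim : L ⊆ D.image fun i => c i m := by
    intro t ht
    rw [hL, mem_filter] at ht
    obtain ⟨i, hi, hiD⟩ := hcon t ht.2
    rw [mem_image]
    exact ⟨i, hiD, hi⟩
  have hLc : L.card ≤ 2 * B := (card_le_card hLim).trans (card_image_le.trans hD)
  have hpt : ∀ t : Fin q, B + 1 ≤ cnt c m t + (if t ∈ L then B else 0) := by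
    intro t
    by_cases ht : t ∈ L
    · rw [if_pos ht]
      have h1 : cnt c m t ≤ B := by rw [hL, mem_filter] at ht; exact ht.2
      obtain ⟨i, hi, _⟩ := hcon t h1
      have : 0 < cnt c m t := by
        unfold cnt
        exact card_pos.mpr ⟨i, by simp [hi]⟩
      omega
    · rw [if_neg ht]
      rw [hL, mem_filter] at ht
      push Not at ht
      have := ht (mem_univ _)
      omega
  have h2 : ∑ _t : Fin q, (B + 1) ≤ ∑ t : Fin q, (cnt c m t + (if t ∈ L then B else 0)) :=
    sum_le_sum fun t _ => hpt t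
  have hA : ∑ _t : Fin q, (B + 1) = q * (B + 1) := by
    rw [sum_const, card_univ, Fintype.card_fin, smul_eq_mul]
  have h3 : (univ.filter fun t => t ∈ L) = L := by ext t; simp
  have hB : ∑ t : Fin q, (cnt c m t + (if t ∈ L then B else 0)) = k + L.card * B := by
    rw [sum_add_distrib, hsum, ← sum_filter, sum_const, smul_eq_mul, h3]
  rw [hA, hB] at h2
  have h4 : L.card * B ≤ 2 * B * B := Nat.mul_le_mul_right _ hLc
  have h5 : 2 * B * B = B * (2 * B) := by ring
  omega

theorem exists_start (hk : k + B * (2 * B) < q * (B + 1)) (c : Fin k → Fin 3 → Fin q) :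
    ∃ r, Inv B c r := by
  obtain ⟨r0, h0, -⟩ := choose hk c 0 ∅ (by simp)
  obtain ⟨r1, h1, h1'⟩ := choose hk c 1 (univ.filter fun i => c i 0 = r0)
    (by have : cnt c 0 r0 ≤ B := h0; unfold cnt at this; omega)
  obtain ⟨r2, h2, h2'⟩ := choose hk c 2
    ((univ.filter fun i => c i 0 = r0) ∪ (univ.filter fun i => c i 1 = r1))
    (by
      refine (card_union_le _ _).trans ?_
      have h0' : cnt c 0 r0 ≤ B := h0
      have h1'' : cnt c 1 r1 ≤ B := h1
      unfold cnt at h0' h1''
      omega)
  refine ⟨![r0, r1, r2], ?_, ?_⟩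
  · have e01 : ∀ i, c i 0 = r0 → c i 1 ≠ r1 := fun i ha hb =>
      h1' i hb (by simp [ha])
    have e02 : ∀ i, c i 0 = r0 → c i 2 ≠ r2 := fun i ha hb =>
      h2' i hb (by simp [ha])
    have e12 : ∀ i, c i 1 = r1 → c i 2 ≠ r2 := fun i ha hb =>
      h2' i hb (by simp [ha])
    intro i a b hab
    fin_cases a <;> fin_cases b <;> simp at hab ⊢
    · exact e01 i
    · exact e02 i
    · exact fun h h' => e01 i h' h
    · exact e12 i
    · exact fun h h' => e02 i h' h
    · exact fun h h' => e12 i h' h
  · intro a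
    fin_cases a
    · exact h0
    · exact h1
    · exact h2

theorem exists_other (m : Fin 3) : ∃ a b : Fin 3, a ≠ b ∧ a ≠ m ∧ b ≠ m ∧
    ∀ x : Fin 3, x ≠ m → x = a ∨ x = b := by
  revert m; decide

theorem Inv.ne {c : Fin k → Fin 3 → Fin q} {r : Fin 3 → Fin q} (h : Inv B c r) (i : Fin k) :
    c i ≠ r := fun e => h.1 i 0 1 (by decide) (by rw [e]) (by rw [e])

theorem step (hk : k + B * (2 * B) < q * (B + 1)) {c c' : Fin k → Fin 3 → Fin q}
    {r : Fin 3 → Fin q} (h : Inv B c r) (hm : LazyMove (ham q) c c') :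
    (∀ i, c' i ≠ r) ∧ ∃ r', (r' = r ∨ (ham q).Adj r r') ∧ Inv B c' r' := by
  rcases hm with rfl | ⟨i, y, hadj, rfl⟩
  · exact ⟨fun i => h.ne i, r, Or.inl rfl, h⟩
  obtain ⟨m, t0, rfl⟩ := exists_update hadj
  obtain ⟨a, b, hab, ham', hbm, hx⟩ := exists_other m
  set c' := Function.update c i (Function.update (c i) m t0) with hc'
  -- coordinates other than `m` are unchanged
  have hsame : ∀ j x, x ≠ m → c' j x = c j x := by
    intro j x hxm
    rw [hc']
    by_cases hj : j = i
    · subst hj
      rw [Function.update_self, Function.update_of_ne hxm]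
    · rw [Function.update_of_ne hj]
  have hcnt : ∀ x, x ≠ m → ∀ v, cnt c' x v = cnt c x v := by
    intro x hxm v
    unfold cnt
    congr 1
    ext j
    simp only [mem_filter, mem_univ, true_and]
    rw [hsame j x hxm]
  refine ⟨?_, ?_⟩
  · intro j e
    refine h.1 j a b hab ?_ ?_
    · rw [← hsame j a ham', e]
    · rw [← hsame j b hbm, e]
  · obtain ⟨t, ht, htD⟩ := choose hk c' m
      ((univ.filter fun j => c' j a = r a) ∪ (univ.filter fun j => c' j b = r b))
      (by
        refine (card_union_le _ _).trans ?_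
        have h1 : cnt c' a (r a) ≤ B := by rw [hcnt a ham']; exact h.2 a
        have h2 : cnt c' b (r b) ≤ B := by rw [hcnt b hbm]; exact h.2 b
        unfold cnt at h1 h2
        omega)
    refine ⟨Function.update r m t, ?_, ?_, ?_⟩
    · by_cases htr : t = r m
      · left; rw [htr, Function.update_eq_self]
      · right; exact adj_update r m t htr
    · have key : ∀ j x, x ≠ m → c' j m = t → c' j x ≠ r x := by
        intro j x hxm hj hjx
        apply htD j hj
        rw [mem_union, mem_filter, mem_filter]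
        rcases hx x hxm with rfl | rfl
        · exact Or.inl ⟨mem_univ _, hjx⟩
        · exact Or.inr ⟨mem_univ _, hjx⟩
      intro j x y hxy h1 h2
      by_cases hxm : x = m
      · subst hxm
        rw [Function.update_self] at h1
        rw [Function.update_of_ne hxy.symm] at h2
        exact key j y hxy.symm h1 h2
      · rw [Function.update_of_ne hxm] at h1
        by_cases hym : y = m
        · subst hym
          rw [Function.update_self] at h2
          exact key j x hxm h2 h1
        · rw [Function.update_of_ne hym] at h2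
          rw [hsame j x hxm] at h1
          rw [hsame j y hym] at h2
          exact h.1 j x y hxy h1 h2
    · intro x
      by_cases hxm : x = m
      · subst hxm
        rw [Function.update_self]
        exact ht
      · rw [Function.update_of_ne hxm, hcnt x hxm]
        exact h.2 x

theorem not_copsWin (hk : k + B * (2 * B) < q * (B + 1)) {c : Fin k → Fin 3 → Fin q}
    {r : Fin 3 → Fin q} (h : CopsWin (ham q) c r) : ¬ Inv B c r := by
  induction h with
  | caught c r i h => exact fun hI => hI.ne i h
  | capture c c' r hm i h => exact fun hI => (step hk hI hm).1 i h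
  | move c c' r hm h ih =>
    intro hI
    obtain ⟨-, r', hr', hI'⟩ := step hk hI hm
    exact ih r' hr' hI'

theorem escape (hk : k + B * (2 * B) < q * (B + 1)) (c : Fin k → Fin 3 → Fin q) :
    ∃ r, ¬ CopsWin (ham q) c r := by
  obtain ⟨r, hr⟩ := exists_start hk c
  exact ⟨r, fun h => not_copsWin hk h hr⟩

end strategy

section star

/-- the vertices of the Hamming graph, a hub (`inr none`) and `l` leaves (`inr (some i)`) -/
abbrev W (q l : ℕ) := (Fin 3 → Fin q) ⊕ Option (Fin l)

/-- The adjacency of the Hamming graph with a star attached: the hub is adjacent to the `l` leaves and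
to the vertex `h` of the Hamming graph. -/
def adjW {q l : ℕ} (h : Fin 3 → Fin q) : W q l → W q l → Prop
  | Sum.inl x, Sum.inl y => (ham q).Adj x y
  | Sum.inl x, Sum.inr none => x = h
  | Sum.inr none, Sum.inl x => x = h
  | Sum.inr none, Sum.inr (some _) => True
  | Sum.inr (some _), Sum.inr none => True
  | _, _ => False

/-- the Hamming graph with a star attached at the vertex `h` -/
def starHam {q : ℕ} (l : ℕ) (h : Fin 3 → Fin q) : SimpleGraph (W q l) where
  Adj := adjW h
  symm := ⟨by
    rintro (x | (_ | i)) (y | (_ | j)) hxy <;> simp only [adjW] at hxy ⊢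
    · exact SimpleGraph.Adj.symm hxy
    · exact hxy
    · exact hxy⟩
  loopless := ⟨by
    rintro (x | (_ | i)) hx <;> simp only [adjW] at hx
    exact (ham q).loopless.irrefl x hx⟩

/-- the retraction of the graph onto the Hamming graph -/
def ret {q l : ℕ} (h : Fin 3 → Fin q) : W q l → (Fin 3 → Fin q)
  | Sum.inl x => x
  | Sum.inr _ => h

theorem ret_adj {q l : ℕ} {h : Fin 3 → Fin q} {x y : W q l} (hxy : (starHam l h).Adj x y) :
    ret h x = ret h y ∨ (ham q).Adj (ret h x) (ret h y) := by
  have hxy' : adjW h x y := hxy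
  rcases x with (x | (_ | i)) <;> rcases y with (y | (_ | j)) <;> simp only [adjW] at hxy' <;>
    simp only [ret]
  · exact Or.inr hxy'
  · exact Or.inl hxy'
  · exact Or.inl hxy'.symm
  · exact Or.inl trivial
  · exact Or.inl trivial

theorem ret_move {q l k : ℕ} {h : Fin 3 → Fin q} {c c' : Fin k → W q l}
    (hm : LazyMove (starHam l h) c c') :
    LazyMove (ham q) (fun i => ret h (c i)) (fun i => ret h (c' i)) := by
  rcases hm with rfl | ⟨i, y, hadj, rfl⟩
  · exact Or.inl rfl
  · have e : (fun j => ret h (Function.update c i y j)) =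
        Function.update (fun j => ret h (c j)) i (ret h y) := by
      funext j
      by_cases hj : j = i
      · subst hj; rw [Function.update_self, Function.update_self]
      · rw [Function.update_of_ne hj, Function.update_of_ne hj]
    rw [e]
    rcases ret_adj hadj with h1 | h1
    · left
      rw [← h1]
      exact Function.update_eq_self i (fun j => ret h (c j))
    · right
      exact ⟨i, ret h y, h1, rfl⟩

theorem ret_copsWin {q l k : ℕ} {h : Fin 3 → Fin q} {c : Fin k → W q l} {w : W q l}
    (hw : CopsWin (starHam l h) c w) : ∀ r : Fin 3 → Fin q, w = Sum.inl r →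
    CopsWin (ham q) (fun i => ret h (c i)) r := by
  induction hw with
  | caught c r' i hi =>
    rintro r rfl
    exact CopsWin.caught _ _ i (by simp only [hi, ret])
  | capture c c' r' hm i hi =>
    rintro r rfl
    exact CopsWin.capture _ _ _ (ret_move hm) i (by simp only [hi, ret])
  | move c c' r' hm h' ih =>
    rintro r rfl
    refine CopsWin.move _ _ _ (ret_move hm) ?_
    intro r1 hr1
    refine ih (Sum.inl r1) ?_ r1 rfl
    rcases hr1 with rfl | hr1
    · exact Or.inl rfl
    · exact Or.inr hr1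

theorem lt_lazyCopNumber {q l k B : ℕ} (hk : k + B * (2 * B) < q * (B + 1)) (h : Fin 3 → Fin q) :
    k < lazyCopNumber (starHam l h) := by
  by_contra hcon
  push Not at hcon
  have hne : {k : ℕ | ∃ c : Fin k → W q l, ∀ r, CopsWin (starHam l h) c r}.Nonempty := by
    refine ⟨Fintype.card (W q l), fun i => (Fintype.equivFin (W q l)).symm i, fun r => ?_⟩
    exact CopsWin.caught _ _ (Fintype.equivFin (W q l) r) (Equiv.symm_apply_apply _ _)
  obtain ⟨c, hc⟩ := Nat.sInf_mem hne
  have hle : sInf {k : ℕ | ∃ c : Fin k → W q l, ∀ r, CopsWin (starHam l h) c r} ≤ k := hcon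
  obtain ⟨r, hr⟩ := escape (B := B) (q := q) (lt_of_le_of_lt (Nat.add_le_add_right hle _) hk)
    (fun i => ret h (c i))
  exact hr (ret_copsWin (hc (Sum.inl r)) r rfl)

theorem lt_lazyCopNumber_ham {q k B : ℕ} (hk : k + B * (2 * B) < q * (B + 1)) :
    k < lazyCopNumber (ham q) := by
  by_contra hcon
  push Not at hcon
  have hne : {k : ℕ | ∃ c : Fin k → (Fin 3 → Fin q), ∀ r, CopsWin (ham q) c r}.Nonempty := by
    refine ⟨Fintype.card (Fin 3 → Fin q), fun i => (Fintype.equivFin _).symm i, fun r => ?_⟩
    exact CopsWin.caught _ _ (Fintype.equivFin _ r) (Equiv.symm_apply_apply _ _)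
  obtain ⟨c, hc⟩ := Nat.sInf_mem hne
  have hle : sInf {k : ℕ | ∃ c : Fin k → (Fin 3 → Fin q), ∀ r, CopsWin (ham q) c r} ≤ k := hcon
  obtain ⟨r, hr⟩ := escape (B := B) (q := q) (lt_of_le_of_lt (Nat.add_le_add_right hle _) hk) c
  exact hr (hc r)

theorem reach_update {q : ℕ} (x : Fin 3 → Fin q) (m : Fin 3) (t : Fin q) :
    (ham q).Reachable x (Function.update x m t) := by
  by_cases h : t = x m
  · rw [h, Function.update_eq_self]
  · exact (adj_update x m t h).reachable

theorem reach {q : ℕ} (x y : Fin 3 → Fin q) : (ham q).Reachable x y := by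
  have h1 := reach_update x 0 (y 0)
  have h2 := reach_update (Function.update x 0 (y 0)) 1 (y 1)
  have h3 := reach_update (Function.update (Function.update x 0 (y 0)) 1 (y 1)) 2 (y 2)
  have e : Function.update (Function.update (Function.update x 0 (y 0)) 1 (y 1)) 2 (y 2) = y := by
    funext i
    fin_cases i <;> simp [Function.update]
  rw [e] at h3
  exact h1.trans (h2.trans h3)

theorem connected_starHam {q : ℕ} (l : ℕ) (h : Fin 3 → Fin q) : (starHam l h).Connected := by
  have hH : ∀ x : Fin 3 → Fin q, (starHam l h).Reachable (Sum.inl x) (Sum.inl h) := by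
    intro x
    let f : ham q →g starHam l h := ⟨Sum.inl, fun {a b} hab => hab⟩
    exact (reach x h).map f
  have hhub : (starHam l h).Adj (Sum.inr none) (Sum.inl h) := rfl
  have hall : ∀ w : W q l, (starHam l h).Reachable w (Sum.inl h) := by
    rintro (x | (_ | i))
    · exact hH x
    · exact hhub.reachable
    · have : (starHam l h).Adj (Sum.inr (some i)) (Sum.inr none) := trivial
      exact this.reachable.trans hhub.reachable
  have : Nonempty (W q l) := ⟨Sum.inl h⟩
  exact SimpleGraph.Connected.mk fun u v => (hall u).trans (hall v).symm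

end star

theorem arith (k : ℕ) (hk : 365 ≤ k) : ∃ q B : ℕ, 0 < q ∧ q ^ 3 ≤ k ^ 2 ∧
    k + B * (2 * B) < q * (B + 1) := by
  classical
  have hex : ∃ Q : ℕ, k ^ 2 < Q ^ 3 := ⟨k + 1, by nlinarith [Nat.zero_le k, sq_nonneg k]⟩
  obtain ⟨Q, hQ, hmin⟩ : ∃ Q : ℕ, k ^ 2 < Q ^ 3 ∧ ∀ m < Q, m ^ 3 ≤ k ^ 2 :=
    ⟨Nat.find hex, Nat.find_spec hex, fun m hm => not_lt.mp (Nat.find_min hex hm)⟩
  have hQ52 : 52 ≤ Q := by
    by_contra hlt
    push Not at hlt
    have h1 : Q ^ 3 ≤ 51 ^ 3 := Nat.pow_le_pow_left (by omega) 3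
    have h2 : 365 ^ 2 ≤ k ^ 2 := Nat.pow_le_pow_left hk 2
    norm_num at h1 h2
    omega
  obtain ⟨q, rfl⟩ : ∃ q, Q = q + 1 := ⟨Q - 1, by omega⟩
  refine ⟨q, q / 4, by omega, hmin q (by omega), ?_⟩
  obtain ⟨B, s, hs, rfl⟩ : ∃ B s, s < 4 ∧ q = 4 * B + s := ⟨q / 4, q % 4, Nat.mod_lt _ (by norm_num),
    (Nat.div_add_mod q 4).symm⟩
  have e : (4 * B + s) / 4 = B := by omega
  rw [e]
  have key : k < 2 * B ^ 2 + (4 + s) * B + s := by
    refine lt_of_pow_lt_pow_left₀ 2 (Nat.zero_le _) (lt_of_lt_of_le hQ ?_)
    interval_cases s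
    · obtain ⟨x, rfl⟩ : ∃ x, B = x + 13 := ⟨B - 13, by omega⟩
      ring_nf
      nlinarith [Nat.zero_le x, Nat.zero_le (x ^ 2), Nat.zero_le (x ^ 3), Nat.zero_le (x ^ 4)]
    · obtain ⟨x, rfl⟩ : ∃ x, B = x + 13 := ⟨B - 13, by omega⟩
      ring_nf
      nlinarith [Nat.zero_le x, Nat.zero_le (x ^ 2), Nat.zero_le (x ^ 3), Nat.zero_le (x ^ 4)]
    · obtain ⟨x, rfl⟩ : ∃ x, B = x + 13 := ⟨B - 13, by omega⟩
      ring_nf
      nlinarith [Nat.zero_le x, Nat.zero_le (x ^ 2), Nat.zero_le (x ^ 3), Nat.zero_le (x ^ 4)]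
    · obtain ⟨x, rfl⟩ : ∃ x, B = x + 12 := ⟨B - 12, by omega⟩
      ring_nf
      nlinarith [Nat.zero_le x, Nat.zero_le (x ^ 2), Nat.zero_le (x ^ 3), Nat.zero_le (x ^ 4)]
  nlinarith [key]

open Classical in
/-- (1) Lower bound for the lazy cop number of `K_q □ K_q □ K_q`: it is at least `q + B (q - 2 B)`
for every `B` (with `B = q / 4` about `q ^ 2 / 8`).
(2) For every `k ≥ 365` and every `n > k ^ 2` there is a connected graph `G` on `n` vertices with
`Δ(G) ≥ n - k ^ 2` and `c_L(G) ≥ k + 1`. -/
theorem result :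
    (∀ q k B : ℕ, k + B * (2 * B) < q * (B + 1) → k < lazyCopNumber (ham q)) ∧
    (∀ k : ℕ, 365 ≤ k → ∀ n : ℕ, k ^ 2 < n →
      ∃ (V : Type) (_ : Fintype V) (G : SimpleGraph V), Fintype.card V = n ∧ G.Connected ∧
        n ≤ G.maxDegree + k ^ 2 ∧ k + 1 ≤ lazyCopNumber G) := by
  refine ⟨fun q k B h => lt_lazyCopNumber_ham h, fun k hk n hn => ?_⟩
  obtain ⟨q, B, hq, hqk, hB⟩ := arith k hk
  obtain ⟨l, hl⟩ : ∃ l, n = q ^ 3 + (l + 1) := ⟨n - q ^ 3 - 1, by omega⟩
  let h : Fin 3 → Fin q := fun _ => ⟨0, hq⟩
  refine ⟨W q l, inferInstance, starHam l h, ?_, connected_starHam l h, ?_,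
    lt_lazyCopNumber hB h⟩
  · rw [hl]
    simp [W]
  · have hdeg : l + 1 ≤ (starHam l h).degree (Sum.inr none) := by
      rw [← SimpleGraph.card_neighborFinset_eq_degree]
      have hsub : (insert (Sum.inl h) ((univ : Finset (Fin l)).map
          ⟨fun i => (Sum.inr (some i) : W q l), fun i j hij => by simpa using hij⟩)) ⊆
          (starHam l h).neighborFinset (Sum.inr none) := by
        intro w hw
        rw [SimpleGraph.mem_neighborFinset]
        rw [mem_insert, mem_map] at hw
        rcases hw with rfl | ⟨i, -, rfl⟩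
        · exact rfl
        · exact trivial
      refine le_trans ?_ (card_le_card hsub)
      rw [card_insert_of_notMem (by simp), card_map, card_univ, Fintype.card_fin]
    have := (starHam l h).degree_le_maxDegree (Sum.inr none)
    omega

end Pool.Agent.Results.MP_9f93d5_co.Disproof
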